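import Pool.Agent.W913.IPM.Defs

set_option autoImplicit false

open Set

namespace Pool.Agent.W913.IPM

/-- exponents of the maximal feasible point at cost `τ ^ lam` -/
def ex (m : ℕ) (lam : ℤ) : ℕ → ℤ × ℤ
  | 0 => (lam, 0)
  | j + 1 => (min (ex m lam j).1 (ex m lam j).2,
      max (ex m lam j).1 (ex m lam j).2 - 2 ^ (m - 1 - j))

/-- the tent recursion -/
def tent : ℕ → ℤ → ℤ
  | 0, l => l
  | m + 1, l => tent m (2 ^ m - |l|)

lemma tent_value (m : ℕ) : ∀ k : ℕ, k ≤ 2 ^ m →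
    tent m (-2 ^ m + 2 * (k : ℤ)) = (-1) ^ (k + 1) := by
  induction m with
  | zero =>
    intro k hk
    have : k = 0 ∨ k = 1 := by
      simp at hk; omega
    rcases this with h | h <;> subst h <;> simp [tent]
  | succ m ih =>
    intro k hk
    simp only [tent]
    rcases le_or_gt k (2 ^ m) with h | h
    · have h1 : (k : ℤ) ≤ 2 ^ m := by exact_mod_cast h
      have h2 : |(-2 ^ (m + 1) + 2 * (k : ℤ))| = 2 ^ (m + 1) - 2 * (k : ℤ) := by
        rw [abs_of_nonpos]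
        · ring
        · rw [pow_succ]; linarith
      rw [h2, ← ih k h]
      congr 1
      rw [pow_succ]; ring
    · obtain ⟨k', hk'⟩ : ∃ k' : ℕ, k + k' = 2 ^ (m + 1) := ⟨2 ^ (m + 1) - k, by omega⟩
      have h3 : k' ≤ 2 ^ m := by
        rw [pow_succ] at hk'; omega
      have hk'' : (k : ℤ) + k' = 2 ^ (m + 1) := by exact_mod_cast hk'
      have h1 : (2 : ℤ) ^ m ≤ k := by exact_mod_cast h.le
      have h2 : |(-2 ^ (m + 1) + 2 * (k : ℤ))| = 2 * (k : ℤ) - 2 ^ (m + 1) := by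
        rw [abs_of_nonneg]
        · ring
        · rw [pow_succ]; linarith
      have h4 : (2 : ℤ) ^ m - |(-2 ^ (m + 1) + 2 * (k : ℤ))| = -2 ^ m + 2 * (k' : ℤ) := by
        rw [h2]
        rw [pow_succ] at hk'' ⊢
        linarith
      rw [h4, ih k' h3]
      have h5 : (-1 : ℤ) ^ (k + k') = 1 := by
        rw [hk', pow_succ, pow_mul]
        norm_num [← pow_mul]
      rw [pow_succ, pow_succ]
      have h6 : (-1 : ℤ) ^ k * (-1) ^ k' = 1 := by rw [← pow_add]; exact h5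
      have h7 : (-1 : ℤ) ^ k * (-1) ^ k = 1 := by rw [← pow_add]; exact Even.neg_one_pow ⟨k, rfl⟩
      have h8 : (-1 : ℤ) ^ k ≠ 0 := by positivity
      have : (-1 : ℤ) ^ k' = (-1) ^ k := by
        apply mul_left_cancel₀ h8
        rw [h6, h7]
      rw [this]

lemma ex_diff_succ (m : ℕ) (lam : ℤ) (j : ℕ) :
    (ex m lam (j + 1)).1 - (ex m lam (j + 1)).2 =
      2 ^ (m - 1 - j) - |(ex m lam j).1 - (ex m lam j).2| := by
  simp only [ex]
  rw [← max_sub_min_eq_abs']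
  ring

lemma tent_ex (m : ℕ) (lam : ℤ) (j : ℕ) (hj : j ≤ m) :
    tent (m - j) ((ex m lam j).1 - (ex m lam j).2) = tent m lam := by
  induction j with
  | zero => simp [ex]
  | succ j ih =>
    rw [← ih (by omega), ex_diff_succ]
    obtain ⟨i, hi⟩ : ∃ i, m - j = i + 1 := ⟨m - j - 1, by omega⟩
    rw [hi]
    have h1 : m - (j + 1) = i := by omega
    have h2 : m - 1 - j = i := by omega
    rw [h1, h2]
    rfl

lemma ex_top (m k : ℕ) (hk : k ≤ 2 ^ m) :
    (ex m (-2 ^ m + 2 * (k : ℤ)) m).1 - (ex m (-2 ^ m + 2 * (k : ℤ)) m).2 = (-1) ^ (k + 1) := by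
  have h := tent_ex m (-2 ^ m + 2 * (k : ℤ)) m le_rfl
  rw [Nat.sub_self] at h
  rw [← tent_value m k hk, ← h]
  rfl

lemma upper {m : ℕ} {τ : ℝ} (hτ : 1 ≤ τ) {x : Vars m} (hx : x ∈ feas m τ) (lam : ℤ)
    (hlam : (x 0).1 = τ ^ lam) (j : Fin (m + 1)) :
    (x j).1 ≤ 2 ^ j.val * τ ^ (ex m lam j).1 ∧ (x j).2 ≤ 2 ^ j.val * τ ^ (ex m lam j).2 := by
  have h0 : 0 < τ := by linarith
  obtain ⟨_, h2, _, _, h5⟩ := hx
  induction j using Fin.induction with
  | zero => simp [ex, hlam, h2]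
  | succ j ih =>
    obtain ⟨ih1, ih2⟩ := ih
    obtain ⟨k1, k2, k3⟩ := h5 j
    simp only [Fin.val_castSucc] at ih1 ih2
    have hp : (0 : ℝ) < 2 ^ j.val := by positivity
    simp only [Fin.val_succ, ex]
    have hA : ∀ (a b : ℤ), τ ^ a ≤ τ ^ (max a b) := fun a b =>
      zpow_le_zpow_right₀ hτ (le_max_left _ _)
    have hB : ∀ (a b : ℤ), τ ^ b ≤ τ ^ (max a b) := fun a b =>
      zpow_le_zpow_right₀ hτ (le_max_right _ _)
    constructor
    · have h2' : (2 : ℝ) ^ j.val ≤ 2 ^ (j.val + 1) := by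
        rw [pow_succ]; linarith
      rcases le_total (ex m lam j).1 (ex m lam j).2 with h | h
      · rw [min_eq_left h]
        refine (k1.trans ih1).trans ?_
        exact mul_le_mul_of_nonneg_right h2' (by positivity)
      · rw [min_eq_right h]
        refine (k2.trans ih2).trans ?_
        exact mul_le_mul_of_nonneg_right h2' (by positivity)
    · have hq : (0 : ℝ) < τ ^ 2 ^ (m - 1 - j.val) := by positivity
      rw [zpow_sub₀ h0.ne', pow_succ]
      have hz : τ ^ ((2 : ℤ) ^ (m - 1 - j.val)) = τ ^ 2 ^ (m - 1 - j.val) := by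
        rw [← zpow_natCast]
        push_cast
        rfl
      rw [hz, ← mul_div_assoc, le_div_iff₀ hq, mul_comm]
      refine k3.trans ?_
      have e1 := mul_le_mul_of_nonneg_left (hA (ex m lam j).1 (ex m lam j).2) hp.le
      have e2 := mul_le_mul_of_nonneg_left (hB (ex m lam j).1 (ex m lam j).2) hp.le
      linarith

/-- the maximal feasible point at cost `τ ^ lam` -/
noncomputable def low (m : ℕ) (τ : ℝ) (lam : ℤ) : Vars m :=
  fun j => (τ ^ (ex m lam j).1, τ ^ (ex m lam j).2)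

lemma low_mem {m : ℕ} {τ : ℝ} (hτ : 1 ≤ τ) (lam : ℤ) (hlam : lam ≤ 2 ^ m) :
    low m τ lam ∈ feas m τ := by
  have h0 : 0 < τ := by linarith
  refine ⟨?_, ?_, ?_, ?_, ?_⟩
  · simp only [low, Fin.val_zero, ex]
    have : τ ^ lam ≤ τ ^ ((2 : ℤ) ^ m) := zpow_le_zpow_right₀ hτ hlam
    have hz : τ ^ ((2 : ℤ) ^ m) = τ ^ 2 ^ m := by
      rw [← zpow_natCast]; push_cast; rfl
    rwa [hz] at this
  · simp [low, ex]
  · simp only [low]; positivity
  · simp only [low]; positivity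
  · intro j
    simp only [low, Fin.val_succ, Fin.val_castSucc, ex]
    refine ⟨zpow_le_zpow_right₀ hτ (min_le_left _ _), zpow_le_zpow_right₀ hτ (min_le_right _ _), ?_⟩
    have hz : τ ^ ((2 : ℤ) ^ (m - 1 - j.val)) = τ ^ 2 ^ (m - 1 - j.val) := by
      rw [← zpow_natCast]
      push_cast
      rfl
    rw [← hz, ← zpow_add₀ h0.ne']
    have e : (2 : ℤ) ^ (m - 1 - j.val) + (max (ex m lam j).1 (ex m lam j).2 -
        2 ^ (m - 1 - j.val)) = max (ex m lam j).1 (ex m lam j).2 := by ring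
    rw [e]
    have p1 : 0 < τ ^ (ex m lam j).1 := by positivity
    have p2 : 0 < τ ^ (ex m lam j).2 := by positivity
    rcases le_total (ex m lam j).1 (ex m lam j).2 with h | h
    · rw [max_eq_right h]; linarith
    · rw [max_eq_left h]; linarith

lemma cost_low (m : ℕ) (τ : ℝ) (lam : ℤ) : cost (low m τ lam) = τ ^ lam := by
  simp [cost, low, ex]

/-- the sign of `U_m - V_m` at a centre with cost `τ ^ (-2^m + 2k)` -/
lemma sign_at {m : ℕ} {τ ε : ℝ} (hε : 0 < ε) (hτ : 2 ^ m * (1 + 1 / ε) < τ)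
    {x : Vars m} (hx : x ∈ feas m τ) (k : ℕ) (hk : k ≤ 2 ^ m)
    (hc : cost x = τ ^ (-2 ^ m + 2 * (k : ℤ)))
    (hcen : x + ε • (x - low m τ (-2 ^ m + 2 * (k : ℤ))) ∈ feas m τ) :
    0 < (-1 : ℝ) ^ (k + 1) * ((x (Fin.last m)).1 - (x (Fin.last m)).2) := by
  have h2m : (1 : ℝ) ≤ 2 ^ m := one_le_pow₀ (by norm_num)
  have hτ1 : 1 ≤ τ := by
    have : 1 ≤ (2 : ℝ) ^ m * (1 + 1 / ε) := by
      have : (0 : ℝ) < 1 / ε := by positivity
      nlinarith
    linarith
  have h0 : 0 < τ := by linarith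
  set lam : ℤ := -2 ^ m + 2 * (k : ℤ) with hlam
  obtain ⟨u1, u2⟩ := upper hτ1 hx lam hc (Fin.last m)
  obtain ⟨_, _, g1, g2, _⟩ := hcen
  simp only [low, Pi.add_apply, Pi.smul_apply, Pi.sub_apply, Prod.fst_add, Prod.smul_fst,
    Prod.fst_sub, smul_eq_mul, Prod.snd_add, Prod.smul_snd, Prod.snd_sub, Fin.val_last] at g1 g2
  simp only [Fin.val_last] at u1 u2
  have htop := ex_top m k hk
  rw [← hlam] at htop
  set a := (ex m lam m).1 with ha
  set b := (ex m lam m).2 with hb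
  set u := (x (Fin.last m)).1 with hu
  set v := (x (Fin.last m)).2 with hv
  have hτ' : 2 ^ m * (ε + 1) < ε * τ := by
    have : 2 ^ m * (1 + 1 / ε) * ε < τ * ε := mul_lt_mul_of_pos_right hτ hε
    have e : 2 ^ m * (1 + 1 / ε) * ε = 2 ^ m * (ε + 1) := by field_simp
    rw [e] at this
    linarith
  rcases Nat.even_or_odd k with hev | hodd
  · -- `a = b - 1`
    have h1 : ((-1 : ℤ)) ^ (k + 1) = -1 := Odd.neg_one_pow (Even.add_one hev)
    have h1' : ((-1 : ℝ)) ^ (k + 1) = -1 := Odd.neg_one_pow (Even.add_one hev)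
    rw [h1] at htop
    have hb' : b = a + 1 := by linarith
    rw [hb', zpow_add_one₀ h0.ne'] at g2
    have pa : 0 < τ ^ a := by positivity
    rw [h1']
    -- (1+ε) v ≥ ε τ^a τ > 2^m (1+ε) τ^a ≥ (1+ε) u
    have k1 : 2 ^ m * (ε + 1) * τ ^ a < ε * τ * τ ^ a := mul_lt_mul_of_pos_right hτ' pa
    have k2 : (ε + 1) * u ≤ (ε + 1) * (2 ^ m * τ ^ a) :=
      mul_le_mul_of_nonneg_left u1 (by linarith)
    have k3 : ε * τ * τ ^ a ≤ (ε + 1) * v := by nlinarith
    have k4 : (ε + 1) * u < (ε + 1) * v := by nlinarith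
    have k5 : u < v := lt_of_mul_lt_mul_left k4 (by linarith)
    linarith
  · have h1 : ((-1 : ℤ)) ^ (k + 1) = 1 := Even.neg_one_pow (Odd.add_one hodd)
    have h1' : ((-1 : ℝ)) ^ (k + 1) = 1 := Even.neg_one_pow (Odd.add_one hodd)
    rw [h1] at htop
    have hb' : a = b + 1 := by linarith
    rw [hb', zpow_add_one₀ h0.ne'] at g1
    have pa : 0 < τ ^ b := by positivity
    rw [h1']
    have k1 : 2 ^ m * (ε + 1) * τ ^ b < ε * τ * τ ^ b := mul_lt_mul_of_pos_right hτ' pa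
    have k2 : (ε + 1) * v ≤ (ε + 1) * (2 ^ m * τ ^ b) :=
      mul_le_mul_of_nonneg_left u2 (by linarith)
    have k3 : ε * τ * τ ^ b ≤ (ε + 1) * u := by nlinarith
    have k4 : (ε + 1) * v < (ε + 1) * u := by nlinarith
    have k5 : v < u := lt_of_mul_lt_mul_left k4 (by linarith)
    linarith

end Pool.Agent.W913.IPM
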