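import Mathlib

set_option autoImplicit false

/-!
# Path-following interior point methods: definitions

The linear program `LP(m, τ)`, with the `2 m + 2` variables `U_0, V_0, …, U_m, V_m` and the
`3 m + 4` inequalities below, is: minimise `U_0` subject to

* `U_0 ≤ τ ^ (2 ^ m)`, `V_0 ≤ 1`, `U_m ≥ 0`, `V_m ≥ 0`,
* `U_{j+1} ≤ U_j`, `U_{j+1} ≤ V_j`, `τ ^ (2 ^ (m - 1 - j)) V_{j+1} ≤ U_j + V_j` for `j < m`.
-/

open Set

namespace Pool.Agent.W913.IPM

/-- The space of the variables: `x j = (U_j, V_j)`, `j = 0, …, m`. -/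
abbrev Vars (m : ℕ) : Type := Fin (m + 1) → ℝ × ℝ

/-- The set of feasible points of `LP(m, τ)`. -/
def feas (m : ℕ) (τ : ℝ) : Set (Vars m) :=
  {x | (x 0).1 ≤ τ ^ 2 ^ m ∧ (x 0).2 ≤ 1 ∧ 0 ≤ (x (Fin.last m)).1 ∧ 0 ≤ (x (Fin.last m)).2 ∧
    ∀ j : Fin m, (x j.succ).1 ≤ (x j.castSucc).1 ∧ (x j.succ).1 ≤ (x j.castSucc).2 ∧
      τ ^ 2 ^ (m - 1 - j.val) * (x j.succ).2 ≤ (x j.castSucc).1 + (x j.castSucc).2}

/-- The objective `U_0` of `LP(m, τ)`. -/
def cost {m : ℕ} (x : Vars m) : ℝ := (x 0).1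

/-- `x` is an `ε`-centre of the part of `K` where the cost `f` is at most `f x`: the reflection
through `x`, shrunk by the factor `ε`, maps this part into `K`. -/
def Central {E : Type*} [AddCommGroup E] [Module ℝ E] (K : Set E) (f : E → ℝ) (ε : ℝ) (x : E) :
    Prop :=
  x ∈ K ∧ ∀ y ∈ K, f y ≤ f x → x + ε • (x - y) ∈ K

/-- On the interval `[a, b]` the curve `z` is an arc of complexity `D`: every hyperplane contains
the arc or meets it at no more than `D` parameters. -/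
def IsArc {E : Type*} [AddCommGroup E] [Module ℝ E] (D : ℕ) (z : ℝ → E) (a b : ℝ) : Prop :=
  ∀ l : E →ᵃ[ℝ] ℝ, (∀ s ∈ Icc a b, l (z s) = 0) ∨
    ∃ S : Finset ℝ, S.card ≤ D ∧ ∀ s ∈ Icc a b, l (z s) = 0 → s ∈ S

/-- The curve `z`, parametrised by `[0, 1]`, is a union of `p` arcs of complexity `D`. -/
def UnionOfArcs {E : Type*} [AddCommGroup E] [Module ℝ E] (D p : ℕ) (z : ℝ → E) : Prop :=
  ∃ a b : Fin p → ℝ, (∀ i, IsArc D z (a i) (b i)) ∧ ∀ s ∈ Icc (0 : ℝ) 1, ∃ i, s ∈ Icc (a i) (b i)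

/-- The curve `z` goes from costs at least `M / τ ^ 2` to costs at most `1 / M`, where
`M = τ ^ (2 ^ m)` (the maximum of the cost over `LP(m, τ)` is `M`, its minimum is `0`). -/
def Descends (m : ℕ) (τ : ℝ) {E : Type*} (f : E → ℝ) (z : ℝ → E) : Prop :=
  τ ^ 2 ^ m / τ ^ 2 ≤ f (z 0) ∧ f (z 1) ≤ 1 / τ ^ 2 ^ m

section Barrier

variable {E : Type*} [NormedAddCommGroup E] [NormedSpace ℝ E]

/-- The `k`-th directional derivative `D^k F(x)[h, …, h]`. -/
noncomputable def Dk (k : ℕ) (F : E → ℝ) (x h : E) : ℝ :=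
  iteratedDeriv k (fun t : ℝ => F (x + t • h)) 0

/-- `F` is a self-concordant barrier with parameter `ν` for the closure of the open convex set
`Q` (Nesterov and Nemirovskii). The condition that `F` tends to infinity at the boundary of `Q`
is expressed by: the sublevel sets of `F` are closed. -/
structure SelfConcordantBarrier (Q : Set E) (F : E → ℝ) (ν : ℝ) : Prop where
  isOpen : IsOpen Q
  convex : Convex ℝ Q
  smooth : ContDiffOn ℝ 3 F Q
  closed : ∀ a : ℝ, IsClosed {x | x ∈ Q ∧ F x ≤ a}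
  third : ∀ x ∈ Q, ∀ h : E, |Dk 3 F x h| ≤ 2 * (Dk 2 F x h) ^ (3 / 2 : ℝ)
  grad : ∀ x ∈ Q, ∀ h : E, Dk 1 F x h ^ 2 ≤ ν * Dk 2 F x h

/-- `x` is in the `θ`-neighbourhood of the central path of the barrier `F` and the affine cost
`f`: for some `μ > 0` the Newton decrement of `f / μ + F` at `x` is at most `θ`
(`θ = 0`: `x` is on the central path). Note that `f (x + h) - f x` is the linear part of `f`
at `h`. -/
def NearCentralPath (F f : E → ℝ) (θ : ℝ) (x : E) : Prop :=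
  ∃ μ : ℝ, 0 < μ ∧ ∀ h : E,
    |Dk 1 F x h + (f (x + h) - f x) / μ| ≤ θ * Real.sqrt (Dk 2 F x h)

end Barrier

/-- The polyhedron of the points where all the affine functions `slack i` are nonnegative. -/
def polyhedron {E : Type*} [AddCommGroup E] [Module ℝ E] {n : ℕ} (slack : Fin n → (E →ᵃ[ℝ] ℝ)) :
    Set E := {w | ∀ i, 0 ≤ slack i w}

/-- Linear program: minimise the affine cost `f` over `polyhedron slack`. The primal feasible
point `w` and the dual feasible point `y` (that is, `y ≥ 0` and `f - ∑ i, y i * slack i` is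
constant) are in the wide neighbourhood, with parameter `γ`, of the primal-dual central path: each
product `y i * slack i w` is at least `γ` times their mean, which is positive. -/
def WideNeighbourhood {E : Type*} [AddCommGroup E] [Module ℝ E] {n : ℕ}
    (slack : Fin n → (E →ᵃ[ℝ] ℝ)) (f : E → ℝ) (γ : ℝ) (w : E) (y : Fin n → ℝ) : Prop :=
  w ∈ polyhedron slack ∧ (∀ i, 0 ≤ y i) ∧ (∃ c : ℝ, ∀ v, f v = ∑ i, y i * slack i v + c) ∧
    0 < (∑ i, y i * slack i w) / n ∧
    ∀ i, γ * ((∑ j, y j * slack j w) / n) ≤ y i * slack i w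

section Following

variable {E : Type*} [NormedAddCommGroup E] [NormedSpace ℝ E]

/-- The curve `z` follows the central path of a self-concordant barrier, with some parameter `ν`,
for some convex lift of `LP(m, τ)`: a convex set in the space `E` whose image under the affine map
`π : E → Vars m` is the feasible set. It stays in the `θ`-neighbourhood, for some `θ < 1` such
that `2 ^ m * (1 + 8 * ν / (1 - θ)) < τ`. -/
def FollowsBarrier (m : ℕ) (τ : ℝ) (π : E →ᵃ[ℝ] Vars m) (z : ℝ → E) : Prop :=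
  ∃ (Q : Set E) (F : E → ℝ) (ν θ : ℝ), SelfConcordantBarrier Q F ν ∧ 1 ≤ ν ∧ θ < 1 ∧
    2 ^ m * (1 + 8 * ν / (1 - θ)) < τ ∧ π '' closure Q = feas m τ ∧
    ∀ s ∈ Icc (0 : ℝ) 1, z s ∈ Q ∧ NearCentralPath F (fun v => cost (π v)) θ (z s)

/-- The curve `z` is the primal part of a primal-dual curve in the wide neighbourhood, with
parameter `γ`, of the primal-dual central path of some polyhedral lift, with `n` inequalities,
of `LP(m, τ)`, where `2 ^ m * (1 + n / γ) < τ`. -/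
def FollowsPrimalDual (m : ℕ) (τ : ℝ) (π : E →ᵃ[ℝ] Vars m) (z : ℝ → E) : Prop :=
  ∃ (n : ℕ) (slack : Fin n → (E →ᵃ[ℝ] ℝ)) (γ : ℝ) (y : ℝ → Fin n → ℝ), 0 < γ ∧
    2 ^ m * (1 + n / γ) < τ ∧ π '' polyhedron slack = feas m τ ∧
    ∀ s ∈ Icc (0 : ℝ) 1, WideNeighbourhood slack (fun v => cost (π v)) γ (z s) (y s)

/-- The curve `z` consists of `ε`-centres of the cost level sets of some lift of `LP(m, τ)`, where
`2 ^ m * (1 + 1 / ε) < τ`. -/
def FollowsCentres (m : ℕ) (τ : ℝ) (π : E →ᵃ[ℝ] Vars m) (z : ℝ → E) : Prop :=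
  ∃ (K : Set E) (ε : ℝ), 0 < ε ∧ 2 ^ m * (1 + 1 / ε) < τ ∧ π '' K = feas m τ ∧
    ∀ s ∈ Icc (0 : ℝ) 1, Central K (fun v => cost (π v)) ε (z s)

/-- The curve `z`, parametrised by `[0, 1]`, is a union of `p` rational arcs of degree at most
`D` (polynomial arcs if the denominators `q` are `1`; segments if also `D = 1`). -/
def UnionOfRationalArcs (D p : ℕ) (z : ℝ → E) : Prop :=
  ∃ a b : Fin p → ℝ, (∀ s ∈ Icc (0 : ℝ) 1, ∃ i, s ∈ Icc (a i) (b i)) ∧
    ∀ i, ∃ (q : Polynomial ℝ) (e : Fin (D + 1) → E), q.natDegree ≤ D ∧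
      ∀ s ∈ Icc (a i) (b i), q.eval s ≠ 0 ∧ z s = (q.eval s)⁻¹ • ∑ k : Fin (D + 1), s ^ (k : ℕ) • e k

end Following

end Pool.Agent.W913.IPM
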