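import Pool.Agent.W913.IPM.Defs

set_option autoImplicit false

open Set Filter Topology

namespace Pool.Agent.W913.IPM

/-- if a function increases whenever it is below `c`, it stays above `c` -/
lemma stay_above {f f' : ℝ → ℝ} {a b c : ℝ} (hf : ContinuousOn f (Icc a b))
    (hd : ∀ t ∈ Ioo a b, HasDerivAt f (f' t) t) (ha : c ≤ f a)
    (h : ∀ t ∈ Ioo a b, f t < c → 0 ≤ f' t) : ∀ t ∈ Icc a b, c ≤ f t := by
  intro t1 ht1
  by_contra hlt
  push Not at hlt
  let S : Set ℝ := Icc a t1 ∩ {t | c ≤ f t}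
  have hsub : Icc a t1 ⊆ Icc a b := Icc_subset_Icc_right ht1.2
  have hScl : IsClosed S := by
    have := (hf.mono hsub).preimage_isClosed_of_isClosed isClosed_Icc (isClosed_Ici (a := c))
    exact this
  have hSne : S.Nonempty := ⟨a, ⟨le_rfl, ht1.1⟩, ha⟩
  have hSbd : BddAbove S := ⟨t1, fun t ht => ht.1.2⟩
  have h0 : sSup S ∈ S := hScl.csSup_mem hSne hSbd
  set t0 := sSup S with ht0
  obtain ⟨⟨h0a, h0b⟩, h0c⟩ := h0
  have h0c' : c ≤ f t0 := h0c
  have h01 : t0 < t1 := by
    rcases h0b.lt_or_eq with h' | h'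
    · exact h'
    · rw [h'] at h0c'; linarith
  have hbelow : ∀ t ∈ Ioo t0 t1, f t < c := by
    intro t ht
    by_contra hge
    push Not at hge
    have : t ∈ S := ⟨⟨h0a.trans ht.1.le, ht.2.le⟩, hge⟩
    have := le_csSup hSbd this
    rw [← ht0] at this
    linarith [ht.1]
  have hIoo : ∀ t ∈ Ioo t0 t1, t ∈ Ioo a b := fun t ht =>
    ⟨lt_of_le_of_lt h0a ht.1, lt_of_lt_of_le ht.2 ht1.2⟩
  have hmono : MonotoneOn f (Icc t0 t1) := by
    apply monotoneOn_of_deriv_nonneg (convex_Icc _ _)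
    · exact hf.mono (Icc_subset_Icc h0a ht1.2)
    · rw [interior_Icc]
      intro t ht
      exact (hd t (hIoo t ht)).differentiableAt.differentiableWithinAt
    · rw [interior_Icc]
      intro t ht
      rw [(hd t (hIoo t ht)).deriv]
      exact h t (hIoo t ht) (hbelow t ht)
  have := hmono (left_mem_Icc.2 h01.le) (right_mem_Icc.2 h01.le) h01.le
  linarith

/-- if a function decreases whenever it is below `c` and starts below `c`, it stays below `c` -/
lemma stay_below {f f' : ℝ → ℝ} {a b c : ℝ} (hf : ContinuousOn f (Icc a b))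
    (hd : ∀ t ∈ Ioo a b, HasDerivAt f (f' t) t) (ha : f a < c)
    (h : ∀ t ∈ Ioo a b, f t < c → f' t ≤ 0) : ∀ t ∈ Icc a b, f t < c := by
  intro t1 ht1
  by_contra hlt
  push Not at hlt
  let S : Set ℝ := Icc a t1 ∩ {t | c ≤ f t}
  have hsub : Icc a t1 ⊆ Icc a b := Icc_subset_Icc_right ht1.2
  have hScl : IsClosed S := by
    have := (hf.mono hsub).preimage_isClosed_of_isClosed isClosed_Icc (isClosed_Ici (a := c))
    exact this
  have hSne : S.Nonempty := ⟨t1, ⟨ht1.1, le_rfl⟩, hlt⟩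
  have hSbd : BddBelow S := ⟨a, fun t ht => ht.1.1⟩
  have h0 : sInf S ∈ S := hScl.csInf_mem hSne hSbd
  set t0 := sInf S with ht0
  obtain ⟨⟨h0a, h0b⟩, h0c⟩ := h0
  have h0c' : c ≤ f t0 := h0c
  have h01 : a < t0 := by
    rcases h0a.lt_or_eq with h' | h'
    · exact h'
    · rw [← h'] at h0c'; linarith
  have hbelow : ∀ t ∈ Ioo a t0, f t < c := by
    intro t ht
    by_contra hge
    push Not at hge
    have : t ∈ S := ⟨⟨ht.1.le, ht.2.le.trans h0b⟩, hge⟩
    have := csInf_le hSbd this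
    rw [← ht0] at this
    linarith [ht.2]
  have hIoo : ∀ t ∈ Ioo a t0, t ∈ Ioo a b := fun t ht =>
    ⟨ht.1, lt_of_lt_of_le ht.2 (h0b.trans ht1.2)⟩
  have hmono : AntitoneOn f (Icc a t0) := by
    apply antitoneOn_of_deriv_nonpos (convex_Icc _ _)
    · exact hf.mono (Icc_subset_Icc_right (h0b.trans ht1.2))
    · rw [interior_Icc]
      intro t ht
      exact (hd t (hIoo t ht)).differentiableAt.differentiableWithinAt
    · rw [interior_Icc]
      intro t ht
      rw [(hd t (hIoo t ht)).deriv]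
      exact h t (hIoo t ht) (hbelow t ht)
  have := hmono (left_mem_Icc.2 h01.le) (right_mem_Icc.2 h01.le) h01.le
  linarith

lemma rpow_three_half {a : ℝ} (ha : 0 ≤ a) : a ^ (3 / 2 : ℝ) = a * Real.sqrt a := by
  rcases ha.eq_or_lt with h | h
  · rw [← h]; norm_num
  · rw [Real.sqrt_eq_rpow, show (3 / 2 : ℝ) = 1 + 1 / 2 by norm_num, Real.rpow_add h,
      Real.rpow_one]

section

variable {E : Type*} [NormedAddCommGroup E] [NormedSpace ℝ E]

/-- derivatives along a line -/
noncomputable def ph (k : ℕ) (F : E → ℝ) (x h : E) (t : ℝ) : ℝ :=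
  iteratedDeriv k (fun t : ℝ => F (x + t • h)) t

lemma Dk_eq_ph (k : ℕ) (F : E → ℝ) (x h : E) (t : ℝ) : Dk k F (x + t • h) h = ph k F x h t := by
  unfold Dk ph
  have := iteratedDeriv_comp_const_add k (fun t : ℝ => F (x + t • h)) t
  have e : (fun z : ℝ => F (x + t • h + z • h)) = (fun z => (fun t : ℝ => F (x + t • h)) (t + z)) := by
    funext z
    simp only
    rw [add_smul, add_assoc]
  rw [e, this]
  simp

lemma ph_zero (k : ℕ) (F : E → ℝ) (x h : E) : ph k F x h 0 = Dk k F x h := rfl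

variable {Q : Set E} {F : E → ℝ} {ν : ℝ}

lemma isOpen_line (hQ : IsOpen Q) (x h : E) : IsOpen {t : ℝ | x + t • h ∈ Q} := by
  have : Continuous (fun t : ℝ => x + t • h) := by fun_prop
  exact hQ.preimage this

lemma hasDerivAt_ph (hS : SelfConcordantBarrier Q F ν) (x h : E) {t : ℝ} (ht : x + t • h ∈ Q)
    {k : ℕ} (hk : k < 3) : HasDerivAt (ph k F x h) (ph (k + 1) F x h t) t := by
  let J : Set ℝ := {t : ℝ | x + t • h ∈ Q}
  have hJ : IsOpen J := isOpen_line hS.isOpen x h
  have hsm : ContDiffOn ℝ 3 (fun t : ℝ => F (x + t • h)) J := by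
    have h1 : ContDiff ℝ 3 (fun t : ℝ => x + t • h) := by fun_prop
    exact hS.smooth.comp h1.contDiffOn (fun t ht => ht)
  have hk' : ((k : ℕ) : WithTop ℕ∞) < 3 := by exact_mod_cast hk
  have h1 := hsm.differentiableOn_iteratedDerivWithin hk' hJ.uniqueDiffOn
  have h2 : DifferentiableAt ℝ (iteratedDerivWithin k (fun t : ℝ => F (x + t • h)) J) t :=
    (h1 t ht).differentiableAt (hJ.mem_nhds ht)
  have h3 : ph k F x h =ᶠ[𝓝 t] iteratedDerivWithin k (fun t : ℝ => F (x + t • h)) J := by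
    filter_upwards [hJ.mem_nhds ht] with s hs
    exact (iteratedDerivWithin_of_isOpen hJ hs).symm
  have h4 : DifferentiableAt ℝ (ph k F x h) t := h2.congr_of_eventuallyEq h3
  have h5 := h4.hasDerivAt
  have e : deriv (ph k F x h) t = ph (k + 1) F x h t := by
    unfold ph
    rw [iteratedDeriv_succ]
  rw [e] at h5
  exact h5

lemma third_line (hS : SelfConcordantBarrier Q F ν) (x h : E) {t : ℝ} (ht : x + t • h ∈ Q) :
    |ph 3 F x h t| ≤ 2 * (ph 2 F x h t) ^ (3 / 2 : ℝ) := by
  have := hS.third _ ht h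
  rwa [Dk_eq_ph, Dk_eq_ph] at this

lemma grad_line (hS : SelfConcordantBarrier Q F ν) (x h : E) {t : ℝ} (ht : x + t • h ∈ Q) :
    ph 1 F x h t ^ 2 ≤ ν * ph 2 F x h t := by
  have := hS.grad _ ht h
  rwa [Dk_eq_ph, Dk_eq_ph] at this

lemma ph2_nonneg (hS : SelfConcordantBarrier Q F ν) (hν : 0 < ν) (x h : E) {t : ℝ}
    (ht : x + t • h ∈ Q) : 0 ≤ ph 2 F x h t := by
  have h1 := grad_line hS x h ht
  have h2 : 0 ≤ ν * ph 2 F x h t := le_trans (sq_nonneg _) h1
  exact nonneg_of_mul_nonneg_right h2 hν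

/-- lower bound for the second derivative along a segment -/
lemma second_lower (hS : SelfConcordantBarrier Q F ν) (hν : 0 < ν) (x h : E)
    (hseg : ∀ t ∈ Icc (0 : ℝ) 1, x + t • h ∈ Q) :
    ∀ t ∈ Icc (0 : ℝ) 1, Dk 2 F x h ≤
      ph 2 F x h t * (1 + Real.sqrt (Dk 2 F x h) * t) ^ 2 := by
  set r := Real.sqrt (Dk 2 F x h) with hr
  have hr0 : 0 ≤ r := Real.sqrt_nonneg _
  have h00 : x + (0 : ℝ) • h ∈ Q := hseg 0 (by simp)
  have hD : 0 ≤ Dk 2 F x h := by
    have := ph2_nonneg hS hν x h h00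
    rwa [ph_zero] at this
  have hr2 : r ^ 2 = Dk 2 F x h := Real.sq_sqrt hD
  have hder : ∀ t ∈ Icc (0 : ℝ) 1, HasDerivAt (fun t => ph 2 F x h t * (1 + r * t) ^ 2)
      (ph 3 F x h t * (1 + r * t) ^ 2 + ph 2 F x h t * (2 * r * (1 + r * t))) t := by
    intro t ht
    have h1 := hasDerivAt_ph hS x h (hseg t ht) (k := 2) (by norm_num)
    have h2 : HasDerivAt (fun t : ℝ => (1 + r * t) ^ 2) (2 * r * (1 + r * t)) t := by
      have h3 : HasDerivAt (fun t : ℝ => 1 + r * t) r t := by
        simpa using ((hasDerivAt_id t).const_mul r).const_add 1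
      exact (h3.pow 2).congr_deriv (by push_cast; ring)
    exact h1.mul h2
  apply stay_above (f' := fun t => ph 3 F x h t * (1 + r * t) ^ 2 +
    ph 2 F x h t * (2 * r * (1 + r * t)))
  · intro t ht
    exact (hder t ht).continuousAt.continuousWithinAt
  · intro t ht
    exact hder t ⟨ht.1.le, ht.2.le⟩
  · rw [ph_zero]; simp
  · intro t ht hlt
    have htI : t ∈ Icc (0 : ℝ) 1 := ⟨ht.1.le, ht.2.le⟩
    have ht0 : 0 ≤ t := ht.1.le
    have hp := ph2_nonneg hS hν x h (hseg t htI)
    have h3 := third_line hS x h (hseg t htI)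
    rw [rpow_three_half hp] at h3
    have h3' := (abs_le.mp h3).1
    set a := ph 2 F x h t with ha
    set s := Real.sqrt a with hs
    have hs0 : 0 ≤ s := Real.sqrt_nonneg _
    have hs2 : s ^ 2 = a := Real.sq_sqrt hp
    have hu : 0 < 1 + r * t := by positivity
    -- s (1+rt) ≤ r
    have hsr : s * (1 + r * t) ≤ r := by
      have h5 : (s * (1 + r * t)) ^ 2 ≤ r ^ 2 := by
        rw [mul_pow, hs2, hr2]; exact hlt.le
      exact (sq_le_sq₀ (by positivity) hr0).mp h5
    have h6 : -(2 * (a * s)) * (1 + r * t) ^ 2 ≤ ph 3 F x h t * (1 + r * t) ^ 2 :=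
      mul_le_mul_of_nonneg_right h3' (by positivity)
    have h7 : 0 ≤ 2 * a * (1 + r * t) * (r - s * (1 + r * t)) := by
      apply mul_nonneg (by positivity) (by linarith)
    nlinarith

/-- the local norm of `h` is bounded when `x + h` is in the domain and `F` does not decrease
much in the direction `h` -/
lemma norm_bound (hS : SelfConcordantBarrier Q F ν) (hν : 1 ≤ ν) {θ : ℝ} (hθ1 : θ < 1) (x h : E)
    (hseg : ∀ t ∈ Icc (0 : ℝ) 1, x + t • h ∈ Q)
    (hgrad : -(θ * Real.sqrt (Dk 2 F x h)) ≤ Dk 1 F x h) :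
    Real.sqrt (Dk 2 F x h) ≤ 4 * ν / (1 - θ) := by
  have hν0 : 0 < ν := by linarith
  have hlow := second_lower hS hν0 x h hseg
  have h00 : x + (0 : ℝ) • h ∈ Q := hseg 0 (by simp)
  have hD : 0 ≤ Dk 2 F x h := by
    have := ph2_nonneg hS hν0 x h h00
    rwa [ph_zero] at this
  set r := Real.sqrt (Dk 2 F x h) with hr
  have hr0 : 0 ≤ r := Real.sqrt_nonneg _
  have hr2 : r ^ 2 = Dk 2 F x h := Real.sq_sqrt hD
  -- step 2
  have hstep2 : Dk 1 F x h + r ^ 2 / (2 + r) ≤ ph 1 F x h (1 / 2) := by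
    have hder : ∀ t ∈ Icc (0 : ℝ) 1, HasDerivAt (fun t => ph 1 F x h t - t * r ^ 2 / (1 + r * t))
        (ph 2 F x h t - r ^ 2 / (1 + r * t) ^ 2) t := by
      intro t ht
      have hu : 0 < 1 + r * t := by have := ht.1; positivity
      have h1 := hasDerivAt_ph hS x h (hseg t ht) (k := 1) (by norm_num)
      have h3 : HasDerivAt (fun t : ℝ => 1 + r * t) r t := by
        simpa using ((hasDerivAt_id t).const_mul r).const_add 1
      have h4 : HasDerivAt (fun t : ℝ => t * r ^ 2) (r ^ 2) t := by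
        simpa using (hasDerivAt_id t).mul_const (r ^ 2)
      have h5 := h4.div h3 hu.ne'
      exact (h1.sub h5).congr_deriv (by congr 2; ring)
    have hmono : MonotoneOn (fun t => ph 1 F x h t - t * r ^ 2 / (1 + r * t)) (Icc (0 : ℝ) 1) := by
      apply monotoneOn_of_deriv_nonneg (convex_Icc _ _)
      · intro t ht
        exact (hder t ht).continuousAt.continuousWithinAt
      · rw [interior_Icc]
        intro t ht
        exact (hder t ⟨ht.1.le, ht.2.le⟩).differentiableAt.differentiableWithinAt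
      · rw [interior_Icc]
        intro t ht
        rw [(hder t ⟨ht.1.le, ht.2.le⟩).deriv]
        have hu : 0 < 1 + r * t := by have := ht.1; positivity
        have h1 := hlow t ⟨ht.1.le, ht.2.le⟩
        rw [← hr2] at h1
        rw [sub_nonneg, div_le_iff₀ (by positivity)]
        exact h1
    have := hmono (show (0 : ℝ) ∈ Icc (0 : ℝ) 1 by simp)
      (show (1 / 2 : ℝ) ∈ Icc (0 : ℝ) 1 by norm_num) (by norm_num)
    simp only [zero_mul, zero_div, sub_zero] at this
    rw [ph_zero] at this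
    have e : 1 / 2 * r ^ 2 / (1 + r * (1 / 2)) = r ^ 2 / (2 + r) := by
      have h11 : (1 : ℝ) + r * (1 / 2) ≠ 0 := by positivity
      have h22 : (2 : ℝ) + r ≠ 0 := by positivity
      rw [div_eq_div_iff h11 h22]
      ring
    rw [e] at this
    linarith
  -- step 3
  have hstep3 : ph 1 F x h (1 / 2) < 2 * ν := by
    by_contra hge
    push Not at hge
    have hsegI : ∀ t ∈ Icc (1 / 2 : ℝ) 1, t ∈ Icc (0 : ℝ) 1 := fun t ht =>
      ⟨by linarith [ht.1], ht.2⟩
    have hd1 : ∀ t ∈ Icc (1 / 2 : ℝ) 1, HasDerivAt (ph 1 F x h) (ph 2 F x h t) t := fun t ht =>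
      hasDerivAt_ph hS x h (hseg t (hsegI t ht)) (k := 1) (by norm_num)
    have hmono : MonotoneOn (ph 1 F x h) (Icc (1 / 2 : ℝ) 1) := by
      apply monotoneOn_of_deriv_nonneg (convex_Icc _ _)
      · intro t ht
        exact (hd1 t ht).continuousAt.continuousWithinAt
      · rw [interior_Icc]
        intro t ht
        exact (hd1 t ⟨ht.1.le, ht.2.le⟩).differentiableAt.differentiableWithinAt
      · rw [interior_Icc]
        intro t ht
        rw [(hd1 t ⟨ht.1.le, ht.2.le⟩).deriv]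
        exact ph2_nonneg hS hν0 x h (hseg t (hsegI t ⟨ht.1.le, ht.2.le⟩))
    have hpos : ∀ t ∈ Icc (1 / 2 : ℝ) 1, 0 < ph 1 F x h t := by
      intro t ht
      have := hmono (left_mem_Icc.2 (by norm_num)) ht ht.1
      linarith
    have hder : ∀ t ∈ Icc (1 / 2 : ℝ) 1, HasDerivAt (fun t => (ph 1 F x h t)⁻¹ + t / ν)
        (-ph 2 F x h t / ph 1 F x h t ^ 2 + 1 / ν) t := by
      intro t ht
      have h1 := (hd1 t ht).inv (hpos t ht).ne'
      have h2 : HasDerivAt (fun t : ℝ => t / ν) (1 / ν) t := (hasDerivAt_id t).div_const ν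
      exact h1.add h2
    have hanti : AntitoneOn (fun t => (ph 1 F x h t)⁻¹ + t / ν) (Icc (1 / 2 : ℝ) 1) := by
      apply antitoneOn_of_deriv_nonpos (convex_Icc _ _)
      · intro t ht
        exact (hder t ht).continuousAt.continuousWithinAt
      · rw [interior_Icc]
        intro t ht
        exact (hder t ⟨ht.1.le, ht.2.le⟩).differentiableAt.differentiableWithinAt
      · rw [interior_Icc]
        intro t ht
        have htI : t ∈ Icc (1 / 2 : ℝ) 1 := ⟨ht.1.le, ht.2.le⟩
        rw [(hder t htI).deriv]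
        have h1 := grad_line hS x h (hseg t (hsegI t htI))
        have h2 : 0 < ph 1 F x h t ^ 2 := pow_pos (hpos t htI) 2
        have h3 : 1 / ν ≤ ph 2 F x h t / ph 1 F x h t ^ 2 := by
          rw [div_le_div_iff₀ hν0 h2]
          linarith
        have e : -ph 2 F x h t / ph 1 F x h t ^ 2 = -(ph 2 F x h t / ph 1 F x h t ^ 2) := by ring
        rw [e]; linarith
    have h1 := hanti (left_mem_Icc.2 (by norm_num)) (right_mem_Icc.2 (by norm_num))
      (show (1 / 2 : ℝ) ≤ 1 by norm_num)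
    simp only at h1
    have h2 : 0 < (ph 1 F x h 1)⁻¹ := inv_pos.mpr (hpos 1 (right_mem_Icc.2 (by norm_num)))
    have h3 : (ph 1 F x h (1 / 2))⁻¹ ≤ (2 * ν)⁻¹ := inv_anti₀ (by positivity) hge
    have h4 : (2 * ν)⁻¹ = 1 / 2 / ν := by field_simp
    have h5 : (1 : ℝ) / ν = 1 / 2 / ν + 1 / 2 / ν := by field_simp; norm_num
    rw [h5] at h1
    linarith
  have h6 : r - 2 ≤ r ^ 2 / (2 + r) := by
    rw [le_div_iff₀ (by positivity)]
    nlinarith
  have h1θ : 0 < 1 - θ := by linarith
  rw [le_div_iff₀ h1θ]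
  nlinarith

/-- the open Dikin ellipsoid is contained in the domain -/
lemma dikin (hS : SelfConcordantBarrier Q F ν) (hν : 0 < ν) (x h : E) (hx : x ∈ Q) {e : ℝ}
    (he : 0 < e) (her : e * Real.sqrt (Dk 2 F x h) < 1) : x + e • h ∈ Q := by
  by_contra hne
  set r := Real.sqrt (Dk 2 F x h) with hr
  have hr0 : 0 ≤ r := Real.sqrt_nonneg _
  let J : Set ℝ := {t : ℝ | x + t • h ∈ Q}
  have hJ : IsOpen J := isOpen_line hS.isOpen x h
  have h0J : (0 : ℝ) ∈ J := by simp [J, hx]
  have hD : 0 ≤ Dk 2 F x h := by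
    have := ph2_nonneg hS hν x h (t := 0) h0J
    rwa [ph_zero] at this
  have hr2 : r ^ 2 = Dk 2 F x h := Real.sq_sqrt hD
  let S : Set ℝ := Icc 0 e ∩ Jᶜ
  have hScl : IsClosed S := isClosed_Icc.inter hJ.isClosed_compl
  have hSne : S.Nonempty := ⟨e, ⟨he.le, le_rfl⟩, hne⟩
  have hSbd : BddBelow S := ⟨0, fun t ht => ht.1.1⟩
  have hT := hScl.csInf_mem hSne hSbd
  set T := sInf S with hTdef
  obtain ⟨⟨hT0, hTe⟩, hTJ⟩ := hT
  have hTpos : 0 < T := by
    rcases hT0.lt_or_eq with h' | h'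
    · exact h'
    · exfalso; rw [← h'] at hTJ; exact hTJ h0J
  have hin : ∀ t ∈ Ico 0 T, x + t • h ∈ Q := by
    intro t ht
    by_contra hcon
    have : t ∈ S := ⟨⟨ht.1, ht.2.le.trans hTe⟩, hcon⟩
    have := csInf_le hSbd this
    rw [← hTdef] at this
    linarith [ht.2]
  -- choose r'
  obtain ⟨r', hr'1, hr'2⟩ : ∃ r', r < r' ∧ r' * T < 1 := by
    have hrT : r * T < 1 := by nlinarith
    refine ⟨(r + 1 / T) / 2, ?_, ?_⟩
    · have : r < 1 / T := by rw [lt_div_iff₀ hTpos]; exact hrT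
      linarith
    · have : (r + 1 / T) / 2 * T = (r * T + 1) / 2 := by field_simp
      rw [this]; linarith
  have hr'0 : 0 < r' := by linarith
  have hpos : 0 < 1 - r' * T := by linarith
  have hbound : ∀ t ∈ Ico 0 T, ph 2 F x h t ≤ r' ^ 2 / (1 - r' * T) ^ 2 := by
    intro t ht
    have hsub : ∀ s ∈ Icc 0 t, s ∈ Ico 0 T := fun s hs => ⟨hs.1, lt_of_le_of_lt hs.2 ht.2⟩
    have hder : ∀ s ∈ Icc 0 t, HasDerivAt (fun s => ph 2 F x h s * (1 - r' * s) ^ 2)
        (ph 3 F x h s * (1 - r' * s) ^ 2 + ph 2 F x h s * (-(2 * r' * (1 - r' * s)))) s := by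
      intro s hs
      have h1 := hasDerivAt_ph hS x h (hin s (hsub s hs)) (k := 2) (by norm_num)
      have h2 : HasDerivAt (fun t : ℝ => (1 - r' * t) ^ 2) (-(2 * r' * (1 - r' * s))) s := by
        have h3 : HasDerivAt (fun t : ℝ => 1 - r' * t) (-r') s := by
          simpa using ((hasDerivAt_id s).const_mul r').const_sub 1
        exact (h3.pow 2).congr_deriv (by push_cast; ring)
      exact h1.mul h2
    have h1 : ∀ s ∈ Icc 0 t, ph 2 F x h s * (1 - r' * s) ^ 2 < r' ^ 2 := by
      apply stay_below (f' := fun s => ph 3 F x h s * (1 - r' * s) ^ 2 +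
        ph 2 F x h s * (-(2 * r' * (1 - r' * s))))
      · intro s hs
        exact (hder s hs).continuousAt.continuousWithinAt
      · intro s hs
        exact hder s ⟨hs.1.le, hs.2.le⟩
      · rw [ph_zero, mul_zero, sub_zero, one_pow, mul_one, ← hr2]
        nlinarith
      · intro s hs hlt
        have hsI : s ∈ Icc 0 t := ⟨hs.1.le, hs.2.le⟩
        have hsQ := hin s (hsub s hsI)
        have hp := ph2_nonneg hS hν x h hsQ
        have h3 := third_line hS x h hsQ
        rw [rpow_three_half hp] at h3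
        have h3' := (abs_le.mp h3).2
        set a := ph 2 F x h s with ha
        set q := Real.sqrt a with hq
        have hq0 : 0 ≤ q := Real.sqrt_nonneg _
        have hq2 : q ^ 2 = a := Real.sq_sqrt hp
        have hu : 0 < 1 - r' * s := by
          have : r' * s ≤ r' * T := by
            apply mul_le_mul_of_nonneg_left _ hr'0.le
            exact (hsub s hsI).2.le
          linarith
        have hqr : q * (1 - r' * s) ≤ r' := by
          have h5 : (q * (1 - r' * s)) ^ 2 ≤ r' ^ 2 := by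
            rw [mul_pow, hq2]; exact hlt.le
          exact (sq_le_sq₀ (by positivity) hr'0.le).mp h5
        have h6 : ph 3 F x h s * (1 - r' * s) ^ 2 ≤ 2 * (a * q) * (1 - r' * s) ^ 2 :=
          mul_le_mul_of_nonneg_right h3' (by positivity)
        have h7 : 0 ≤ 2 * a * (1 - r' * s) * (r' - q * (1 - r' * s)) := by
          apply mul_nonneg (by positivity) (by linarith)
        nlinarith
    have h2 := h1 t ⟨ht.1, le_rfl⟩
    have hp := ph2_nonneg hS hν x h (hin t ht)
    rw [le_div_iff₀ (by positivity)]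
    have h3 : (1 - r' * T) ^ 2 ≤ (1 - r' * t) ^ 2 := by
      apply pow_le_pow_left₀ hpos.le
      have : r' * t ≤ r' * T := mul_le_mul_of_nonneg_left ht.2.le hr'0.le
      linarith
    calc ph 2 F x h t * (1 - r' * T) ^ 2 ≤ ph 2 F x h t * (1 - r' * t) ^ 2 :=
          mul_le_mul_of_nonneg_left h3 hp
      _ ≤ r' ^ 2 := h2.le
  set C := r' ^ 2 / (1 - r' * T) ^ 2 with hC
  have hC0 : 0 ≤ C := by positivity
  -- bound of the first derivative
  have hb1 : ∀ t ∈ Ico 0 T, ph 1 F x h t ≤ |ph 1 F x h 0| + C * T := by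
    intro t ht
    have hsub : ∀ s ∈ Icc 0 t, s ∈ Ico 0 T := fun s hs => ⟨hs.1, lt_of_le_of_lt hs.2 ht.2⟩
    have hd : ∀ s ∈ Icc 0 t, HasDerivAt (ph 1 F x h) (ph 2 F x h s) s := fun s hs =>
      hasDerivAt_ph hS x h (hin s (hsub s hs)) (k := 1) (by norm_num)
    have := Convex.image_sub_le_mul_sub_of_deriv_le (convex_Icc 0 t) (f := ph 1 F x h)
      (fun s hs => (hd s hs).continuousAt.continuousWithinAt)
      (by
        rw [interior_Icc]
        intro s hs
        exact (hd s ⟨hs.1.le, hs.2.le⟩).differentiableAt.differentiableWithinAt)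
      (C := C)
      (by
        rw [interior_Icc]
        intro s hs
        rw [(hd s ⟨hs.1.le, hs.2.le⟩).deriv]
        exact hbound s (hsub s ⟨hs.1.le, hs.2.le⟩))
      0 ⟨le_rfl, ht.1⟩ t ⟨ht.1, le_rfl⟩ ht.1
    have h2 : C * (t - 0) ≤ C * T := by
      apply mul_le_mul_of_nonneg_left _ hC0
      linarith [ht.2]
    have h3 := le_abs_self (ph 1 F x h 0)
    linarith
  set C1 := |ph 1 F x h 0| + C * T with hC1
  have hC10 : 0 ≤ C1 := by positivity
  have hb0 : ∀ t ∈ Ico 0 T, ph 0 F x h t ≤ ph 0 F x h 0 + C1 * T := by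
    intro t ht
    have hsub : ∀ s ∈ Icc 0 t, s ∈ Ico 0 T := fun s hs => ⟨hs.1, lt_of_le_of_lt hs.2 ht.2⟩
    have hd : ∀ s ∈ Icc 0 t, HasDerivAt (ph 0 F x h) (ph 1 F x h s) s := fun s hs =>
      hasDerivAt_ph hS x h (hin s (hsub s hs)) (k := 0) (by norm_num)
    have := Convex.image_sub_le_mul_sub_of_deriv_le (convex_Icc 0 t) (f := ph 0 F x h)
      (fun s hs => (hd s hs).continuousAt.continuousWithinAt)
      (by
        rw [interior_Icc]
        intro s hs
        exact (hd s ⟨hs.1.le, hs.2.le⟩).differentiableAt.differentiableWithinAt)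
      (C := C1)
      (by
        rw [interior_Icc]
        intro s hs
        rw [(hd s ⟨hs.1.le, hs.2.le⟩).deriv]
        exact hb1 s (hsub s ⟨hs.1.le, hs.2.le⟩))
      0 ⟨le_rfl, ht.1⟩ t ⟨ht.1, le_rfl⟩ ht.1
    have h2 : C1 * (t - 0) ≤ C1 * T := by
      apply mul_le_mul_of_nonneg_left _ hC10
      linarith [ht.2]
    linarith
  -- conclusion
  have hcl := hS.closed (ph 0 F x h 0 + C1 * T)
  have hmem : ∀ t ∈ Ico 0 T, x + t • h ∈ {w | w ∈ Q ∧ F w ≤ ph 0 F x h 0 + C1 * T} := by
    intro t ht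
    refine ⟨hin t ht, ?_⟩
    have := hb0 t ht
    unfold ph at this ⊢
    simpa using this
  have htend : Tendsto (fun t : ℝ => x + t • h) (𝓝[<] T) (𝓝 (x + T • h)) := by
    have : Continuous (fun t : ℝ => x + t • h) := by fun_prop
    exact this.continuousAt.tendsto.mono_left nhdsWithin_le_nhds
  have hev : ∀ᶠ t in 𝓝[<] T, x + t • h ∈ {w | w ∈ Q ∧ F w ≤ ph 0 F x h 0 + C1 * T} := by
    filter_upwards [Ioo_mem_nhdsLT hTpos] with t ht
    exact hmem t ⟨ht.1.le, ht.2⟩
  have hfin := hcl.mem_of_tendsto htend hev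
  exact hTJ hfin.1

lemma Dk_two_neg (F : E → ℝ) (x h : E) : Dk 2 F x (-h) = Dk 2 F x h := by
  unfold Dk
  have := iteratedDeriv_comp_neg 2 (fun t : ℝ => F (x + t • h)) 0
  have e : (fun t : ℝ => F (x + t • -h)) = fun t : ℝ => (fun t : ℝ => F (x + t • h)) (-t) := by
    funext t
    simp
  rw [e, this]
  simp

/-- points near the central path are centres -/
theorem central_of_near (hS : SelfConcordantBarrier Q F ν) (hν : 1 ≤ ν) {θ : ℝ}
    (hθ1 : θ < 1) (f : E →ᵃ[ℝ] ℝ) (x : E) (hx : x ∈ Q) (hnear : NearCentralPath F f θ x) :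
    Central (closure Q) f ((1 - θ) / (8 * ν)) x := by
  have hν0 : 0 < ν := by linarith
  have h1θ : 0 < 1 - θ := by linarith
  set ε := (1 - θ) / (8 * ν) with hε
  have hε0 : 0 < ε := by positivity
  obtain ⟨μ, hμ, hnear⟩ := hnear
  have key : ∀ y ∈ Q, f y ≤ f x → x + ε • (x - y) ∈ Q := by
    intro y hy hfy
    set h := y - x with hh
    have hxy : x + h = y := by rw [hh]; abel
    have hseg : ∀ t ∈ Icc (0 : ℝ) 1, x + t • h ∈ Q := by
      intro t ht
      have := hS.convex hx hy (sub_nonneg.2 ht.2) ht.1 (by ring)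
      have e : x + t • h = (1 - t) • x + t • y := by
        rw [hh, smul_sub, sub_smul, one_smul]; abel
      rw [e]; exact this
    have hn := (abs_le.mp (hnear h)).1
    have hgrad : -(θ * Real.sqrt (Dk 2 F x h)) ≤ Dk 1 F x h := by
      rw [hxy] at hn
      have : (f y - f x) / μ ≤ 0 := div_nonpos_of_nonpos_of_nonneg (by linarith) hμ.le
      linarith
    have hb := norm_bound hS hν hθ1 x h hseg hgrad
    have her : ε * Real.sqrt (Dk 2 F x (-h)) < 1 := by
      rw [Dk_two_neg]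
      have : ε * Real.sqrt (Dk 2 F x h) ≤ ε * (4 * ν / (1 - θ)) :=
        mul_le_mul_of_nonneg_left hb hε0.le
      have e : ε * (4 * ν / (1 - θ)) = 1 / 2 := by
        rw [hε]; field_simp; norm_num
      linarith
    have := dikin hS hν0 x (-h) hx hε0 her
    have e : x - y = -h := by rw [hh]; abel
    rw [e]; exact this
  refine ⟨subset_closure hx, ?_⟩
  intro y hy hfy
  have hfy' : f y ≤ f x := hfy
  -- approximate `y` from inside
  have hs : ∀ s ∈ Ioo (0 : ℝ) 1, x + (ε * s) • (x - y) ∈ Q := by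
    intro s hs
    have hxi : x ∈ interior Q := by rwa [hS.isOpen.interior_eq]
    have h1 := hS.convex.combo_interior_closure_mem_interior hxi hy (sub_pos.2 hs.2) hs.1.le
      (by ring : (1 - s) + s = 1)
    rw [hS.isOpen.interior_eq] at h1
    have h2 : f ((1 - s) • x + s • y) ≤ f x := by
      have e : f ((1 - s) • x + s • y) = (1 - s) * f x + s * f y := by
        have := Convex.combo_affine_apply (f := f) (x := x) (y := y) (a := 1 - s) (b := s) (by ring)
        simpa using this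
      rw [e]
      have := hs.1
      nlinarith
    have h3 := key _ h1 h2
    have e : x + ε • (x - ((1 - s) • x + s • y)) = x + (ε * s) • (x - y) := by
      congr 1
      rw [mul_smul]
      congr 1
      rw [smul_sub, sub_smul, one_smul]
      abel
    rw [e] at h3
    exact h3
  have htend : Tendsto (fun s : ℝ => x + (ε * s) • (x - y)) (𝓝[<] 1) (𝓝 (x + ε • (x - y))) := by
    have hc : Continuous (fun s : ℝ => x + (ε * s) • (x - y)) := by fun_prop
    have := hc.continuousAt (x := (1 : ℝ))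
    have h2 := this.tendsto.mono_left (nhdsWithin_le_nhds (s := Iio 1))
    simpa using h2
  refine mem_closure_of_tendsto htend ?_
  filter_upwards [Ioo_mem_nhdsLT (zero_lt_one)] with s hs'
  exact hs s hs'

end

end Pool.Agent.W913.IPM
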