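import Pool.Agent.W913.IPM.Main
import Pool.Agent.W913.IPM.SCB

set_option autoImplicit false

open Set

namespace Pool.Agent.W913.IPM

theorem central_of_wide {E : Type*} [AddCommGroup E] [Module ℝ E] {n : ℕ}
    (slack : Fin n → (E →ᵃ[ℝ] ℝ)) (f : E → ℝ) (γ : ℝ) (hγ : 0 < γ) (w : E) (y : Fin n → ℝ)
    (h : WideNeighbourhood slack f γ w y) :
    Central (polyhedron slack) f (γ / n) w := by
  obtain ⟨h1, h2, ⟨c, h3⟩, h4, h5⟩ := h
  refine ⟨h1, ?_⟩
  intro v hv hfv i
  have hn : 0 < (n : ℝ) := by
    rcases (Nat.cast_nonneg n : (0 : ℝ) ≤ n).eq_or_lt with h | h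
    · rw [← h, div_zero] at h4; exact absurd h4 (lt_irrefl _)
    · exact h
  set M := (∑ j, y j * slack j w) / n with hM
  have hsum : ∑ j, y j * slack j w = n * M := by rw [hM]; field_simp
  -- the product for `v`
  have h6 : y i * slack i v ≤ n * M := by
    have h7 : y i * slack i v ≤ ∑ j, y j * slack j v :=
      Finset.single_le_sum (f := fun j => y j * slack j v)
        (fun j _ => mul_nonneg (h2 j) (hv j)) (Finset.mem_univ i)
    have h8 : ∑ j, y j * slack j v ≤ ∑ j, y j * slack j w := by
      have := h3 v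
      have := h3 w
      linarith
    linarith
  have h7 := h5 i
  have hγM : 0 < γ * M := by positivity
  have hyi : 0 < y i := by
    rcases (h2 i).eq_or_lt with h | h
    · rw [← h, zero_mul] at h7; linarith
    · exact h
  -- slack i v ≤ (n/γ) slack i w
  have h8 : γ * slack i v ≤ n * slack i w := by
    have : y i * (γ * slack i v) ≤ y i * (n * slack i w) := by
      calc y i * (γ * slack i v) = γ * (y i * slack i v) := by ring
        _ ≤ γ * (n * M) := mul_le_mul_of_nonneg_left h6 hγ.le
        _ = n * (γ * M) := by ring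
        _ ≤ n * (y i * slack i w) := mul_le_mul_of_nonneg_left h7 hn.le
        _ = y i * (n * slack i w) := by ring
    exact le_of_mul_le_mul_left this hyi
  have hval : slack i (w + (γ / n) • (w - v)) =
      slack i w + γ / n * (slack i w - slack i v) := by
    have e : w + (γ / n) • (w - v) = (γ / n) • (w - v) +ᵥ w := by
      rw [vadd_eq_add, add_comm]
    rw [e, (slack i).map_vadd, (slack i).linear.map_smul, vadd_eq_add]
    have e2 : (slack i).linear (w - v) = slack i w - slack i v := by
      have := (slack i).linearMap_vsub w v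
      simpa using this
    rw [e2, smul_eq_mul, add_comm]
  rw [hval]
  have h9 : γ / n * slack i v ≤ slack i w := by
    rw [div_mul_eq_mul_div, div_le_iff₀ hn]
    linarith
  have h10 : 0 ≤ γ / n * slack i w := mul_nonneg (by positivity) (h1 i)
  rw [mul_sub]
  linarith

lemma isArc_rational {E : Type*} [AddCommGroup E] [Module ℝ E] (D : ℕ) (q : Polynomial ℝ)
    (hq : q.natDegree ≤ D) (e : Fin (D + 1) → E) (z : ℝ → E) (a b : ℝ)
    (hz : ∀ s ∈ Icc a b, q.eval s ≠ 0 ∧ z s = (q.eval s)⁻¹ • ∑ k : Fin (D + 1), s ^ (k : ℕ) • e k) :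
    IsArc D z a b := by
  intro l
  let P : Polynomial ℝ := Polynomial.C (l 0) * q +
    ∑ k : Fin (D + 1), Polynomial.C (l.linear (e k)) * Polynomial.X ^ (k : ℕ)
  have hl : ∀ v, l v = l.linear v + l 0 := by
    intro v
    have := l.map_vadd 0 v
    simpa using this
  have hP : ∀ s ∈ Icc a b, q.eval s * l (z s) = P.eval s := by
    intro s hs
    obtain ⟨h1, h2⟩ := hz s hs
    rw [hl, h2, l.linear.map_smul, map_sum]
    simp only [P, Polynomial.eval_add, Polynomial.eval_mul, Polynomial.eval_C,
      Polynomial.eval_finset_sum, Polynomial.eval_pow, Polynomial.eval_X, smul_eq_mul,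
      map_smul]
    rw [mul_add, ← mul_assoc, mul_inv_cancel₀ h1, one_mul, add_comm, mul_comm (q.eval s)]
    congr 1
    apply Finset.sum_congr rfl
    intro k _
    ring
  have hdeg : P.natDegree ≤ D := by
    apply (Polynomial.natDegree_add_le _ _).trans
    apply max_le
    · exact (Polynomial.natDegree_C_mul_le _ _).trans hq
    · apply Polynomial.natDegree_sum_le_of_forall_le
      intro k _
      refine (Polynomial.natDegree_C_mul_X_pow_le _ _).trans ?_
      omega
  by_cases h0 : P = 0
  · left
    intro s hs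
    have := hP s hs
    rw [h0, Polynomial.eval_zero] at this
    exact (mul_eq_zero.mp this).resolve_left (hz s hs).1
  · right
    refine ⟨P.roots.toFinset, ?_, ?_⟩
    · exact (Multiset.toFinset_card_le _).trans ((Polynomial.card_roots' P).trans hdeg)
    · intro s hs hls
      rw [Multiset.mem_toFinset, Polynomial.mem_roots h0, Polynomial.IsRoot.def, ← hP s hs, hls,
        mul_zero]

/-- the objective as a linear map -/
def costL (m : ℕ) : Vars m →ₗ[ℝ] ℝ where
  toFun x := cost x
  map_add' x y := by simp [cost]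
  map_smul' c x := by simp [cost]

theorem main {E : Type*} [NormedAddCommGroup E] [NormedSpace ℝ E] (m : ℕ) (τ : ℝ)
    (π : E →ᵃ[ℝ] Vars m) (hπ : Continuous π) (z : ℝ → E) (hz : ContinuousOn z (Icc 0 1))
    (hd : Descends m τ (fun v => cost (π v)) z)
    (hf : FollowsBarrier m τ π z ∨ FollowsPrimalDual m τ π z ∨ FollowsCentres m τ π z)
    (D p : ℕ) (hD : 1 ≤ D) (hp : UnionOfArcs D p z ∨ UnionOfRationalArcs D p z) :
    2 ^ m ≤ p * D + 1 := by
  have hp' : UnionOfArcs D p z := by
    rcases hp with h | ⟨a, b, h1, h2⟩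
    · exact h
    · refine ⟨a, b, ?_, h1⟩
      intro i
      obtain ⟨q, e, hq, hqe⟩ := h2 i
      exact isArc_rational D q hq e z (a i) (b i) hqe
  rcases hf with h | h | h
  · obtain ⟨Q, F, ν, θ, hS, hν, hθ, hτ, hQ, hs⟩ := h
    have hν0 : 0 < ν := by linarith
    have h1θ : 0 < 1 - θ := by linarith
    have hε : 0 < (1 - θ) / (8 * ν) := by positivity
    refine main_central m τ ((1 - θ) / (8 * ν)) hε ?_ (closure Q) π hπ hQ z hz ?_ hd D p hD hp'
    · rw [one_div_div]; exact hτ
    · intro s hs'
      obtain ⟨h1, h2⟩ := hs s hs'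
      exact central_of_near hS hν hθ ((costL m).toAffineMap.comp π) (z s) h1 h2
  · obtain ⟨n, slack, γ, y, hγ, hτ, hK, hs⟩ := h
    have hn : 0 < (n : ℝ) := by
      have h4 := (hs 0 (by simp)).2.2.2.1
      rcases (Nat.cast_nonneg n : (0 : ℝ) ≤ n).eq_or_lt with h | h
      · rw [← h, div_zero] at h4; exact absurd h4 (lt_irrefl _)
      · exact h
    refine main_central m τ (γ / n) (by positivity) ?_ (polyhedron slack) π hπ hK z hz ?_ hd D p
      hD hp'
    · rw [one_div_div]; exact hτ
    · intro s hs'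
      exact central_of_wide slack _ γ hγ (z s) (y s) (hs s hs')
  · obtain ⟨K, ε, hε, hτ, hK, hs⟩ := h
    exact main_central m τ ε hε hτ K π hπ hK z hz hs hd D p hD hp'

end Pool.Agent.W913.IPM
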