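import Pool.Agent.W913.IPM.Core

set_option autoImplicit false

open Set

namespace Pool.Agent.W913.IPM

/-- the linear form `U_m - V_m` -/
def gap (m : ℕ) : Vars m →ₗ[ℝ] ℝ where
  toFun x := (x (Fin.last m)).1 - (x (Fin.last m)).2
  map_add' x y := by simp; ring
  map_smul' c x := by simp; ring

lemma continuous_gap (m : ℕ) : Continuous (gap m) := by
  change Continuous (fun x : Vars m => (x (Fin.last m)).1 - (x (Fin.last m)).2)
  fun_prop

lemma continuous_cost (m : ℕ) : Continuous (cost : Vars m → ℝ) := by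
  change Continuous (fun x : Vars m => (x 0).1)
  fun_prop

/-- passing successively through decreasing values -/
lemma exists_times (g : ℝ → ℝ) (hg : ContinuousOn g (Icc 0 1)) (v : ℕ → ℝ) (n : ℕ)
    (hv : ∀ i < n, v (i + 1) < v i) (h0 : v 0 ≤ g 0) (h1 : g 1 ≤ v n) :
    ∃ t : ℕ → ℝ, (∀ i ≤ n, t i ∈ Icc (0 : ℝ) 1 ∧ g (t i) = v i) ∧ ∀ i < n, t i < t (i + 1) := by
  have hmono : ∀ i j, i ≤ j → j ≤ n → v j ≤ v i := by
    intro i j hij
    induction j, hij using Nat.le_induction with
    | base => intro _; exact le_rfl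
    | succ j hij ih => intro hj; exact ((hv j (by omega)).le).trans (ih (by omega))
  have key : ∀ k ≤ n, ∃ t : ℕ → ℝ, (∀ i ≤ k, t i ∈ Icc (0 : ℝ) 1 ∧ g (t i) = v i) ∧
      ∀ i < k, t i < t (i + 1) := by
    intro k
    induction k with
    | zero =>
      intro _
      have h := intermediate_value_Icc' (zero_le_one) hg
      obtain ⟨s, hs, hs'⟩ := h ⟨h1.trans (hmono 0 n (by omega) le_rfl), h0⟩
      exact ⟨fun _ => s, fun i hi => by
        obtain rfl : i = 0 := by omega
        exact ⟨hs, hs'⟩, fun i hi => absurd hi (by omega)⟩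
    | succ k ih =>
      intro hk
      obtain ⟨t, ht1, ht2⟩ := ih (by omega)
      obtain ⟨⟨ha, hb⟩, hc⟩ := ht1 k le_rfl
      have h := intermediate_value_Icc' hb (hg.mono (Icc_subset_Icc_left ha))
      have hlt := hv k (by omega)
      obtain ⟨s, hs, hs'⟩ := h ⟨h1.trans (hmono (k + 1) n hk le_rfl), by rw [hc]; exact hlt.le⟩
      have hne : t k < s := by
        rcases hs.1.lt_or_eq with h | h
        · exact h
        · exfalso
          rw [h] at hc
          rw [hs'] at hc
          linarith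
      refine ⟨fun i => if i ≤ k then t i else s, ?_, ?_⟩
      · intro i hi
        by_cases h' : i ≤ k
        · simp only [h', if_true]; exact ht1 i h'
        · obtain rfl : i = k + 1 := by omega
          simp only [h', if_false]
          exact ⟨⟨ha.trans hs.1, hs.2⟩, hs'⟩
      · intro i hi
        by_cases h' : i + 1 ≤ k
        · have h'' : i ≤ k := by omega
          simp only [h', h'', if_true]; exact ht2 i (by omega)
        · obtain rfl : i = k := by omega
          simp only [h', if_false, le_refl, if_true]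
          exact hne
  exact key n le_rfl

/-- counting arcs from sign changes -/
lemma count_arcs {E : Type*} [AddCommGroup E] [Module ℝ E] (z : ℝ → E) (l : E →ᵃ[ℝ] ℝ)
    (hl : ContinuousOn (fun s => l (z s)) (Icc 0 1)) (n : ℕ) (t : ℕ → ℝ)
    (ht : ∀ i ≤ n, t i ∈ Icc (0 : ℝ) 1) (hmono : ∀ i < n, t i < t (i + 1)) (σ : ℝ)
    (hs : ∀ i ≤ n, 0 < σ * (-1) ^ i * l (z (t i))) (D p : ℕ) (hD : 1 ≤ D)
    (hp : UnionOfArcs D p z) : n ≤ p * D := by
  obtain ⟨a, b, harc, hcov⟩ := hp
  -- zeros
  have hz : ∀ i < n, ∃ ξ, t i < ξ ∧ ξ < t (i + 1) ∧ l (z ξ) = 0 := by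
    intro i hi
    have h1 := hs i hi.le
    have h2 := hs (i + 1) hi
    have hc : ContinuousOn (fun s => σ * (-1) ^ i * l (z s)) (Icc (t i) (t (i + 1))) :=
      (continuousOn_const.mul hl).mono (Icc_subset_Icc (ht i hi.le).1 (ht (i + 1) hi).2)
    have h3 := intermediate_value_Icc' (hmono i hi).le hc
    have h4 : (0 : ℝ) ∈ Icc (σ * (-1) ^ i * l (z (t (i + 1)))) (σ * (-1) ^ i * l (z (t i))) := by
      constructor
      · rw [pow_succ] at h2
        have : σ * ((-1) ^ i * -1) * l (z (t (i + 1))) = -(σ * (-1) ^ i * l (z (t (i + 1)))) := by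
          ring
        rw [this] at h2
        linarith
      · exact h1.le
    obtain ⟨ξ, hξ, hξ'⟩ := h3 h4
    simp only at hξ'
    have hσ : σ * (-1) ^ i ≠ 0 := by
      intro h
      rw [h, zero_mul] at h1
      exact lt_irrefl _ h1
    have hξ0 : l (z ξ) = 0 := by
      rcases mul_eq_zero.mp hξ' with h | h
      · exact absurd h hσ
      · exact h
    refine ⟨ξ, ?_, ?_, hξ0⟩
    · rcases hξ.1.lt_or_eq with h | h
      · exact h
      · exfalso
        rw [h, hξ0, mul_zero] at h1
        exact lt_irrefl _ h1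
    · rcases hξ.2.lt_or_eq with h | h
      · exact h
      · exfalso
        rw [← h, hξ0, mul_zero] at h2
        exact lt_irrefl _ h2
  choose! ξ hξ1 hξ2 hξ3 using hz
  have htm : ∀ i j, i ≤ j → j ≤ n → t i ≤ t j := by
    intro i j hij
    induction j, hij using Nat.le_induction with
    | base => intro _; exact le_rfl
    | succ j hij ih => intro hj; exact (ih (by omega)).trans (hmono j (by omega)).le
  have hξm : ∀ i j, i < j → j < n → ξ i < ξ j := by
    intro i j hij hj
    exact ((hξ2 i (by omega)).trans_le (htm (i + 1) j hij hj.le)).trans (hξ1 j hj)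
  have hξI : ∀ i < n, ξ i ∈ Icc (0 : ℝ) 1 := fun i hi =>
    ⟨(ht i hi.le).1.trans (hξ1 i hi).le, (hξ2 i hi).le.trans (ht (i + 1) hi).2⟩
  have hφ : ∀ i : Fin n, ∃ q : Fin p, ξ i ∈ Icc (a q) (b q) := fun i => hcov _ (hξI i i.2)
  choose φ hφ using hφ
  have hfib : ∀ q : Fin p, (Finset.univ.filter (fun i => φ i = q)).card ≤ D := by
    intro q
    rcases harc q l with h | ⟨S, hS, hS'⟩
    · refine le_trans ?_ hD
      rw [Finset.card_le_one]
      intro i hi j hj
      simp only [Finset.mem_filter, Finset.mem_univ, true_and] at hi hj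
      by_contra hne
      have hw : ∀ i j : Fin n, φ i = q → φ j = q → ¬ (i < j) := by
        intro i j hi hj hlt
        have hi1 := hφ i
        have hj1 := hφ j
        rw [hi] at hi1
        rw [hj] at hj1
        have h1 : t (i.val + 1) ∈ Icc (a q) (b q) := by
          refine ⟨hi1.1.trans (hξ2 i i.2).le, ?_⟩
          refine le_trans ?_ hj1.2
          exact (htm (i.val + 1) j.val hlt (by omega)).trans (hξ1 j j.2).le
        have h2 := h _ h1
        have h3 := hs (i.val + 1) (by omega)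
        rw [h2, mul_zero] at h3
        exact lt_irrefl _ h3
      rcases lt_or_gt_of_ne hne with h' | h'
      · exact hw i j hi hj h'
      · exact hw j i hj hi h'
    · refine le_trans ?_ hS
      apply Finset.card_le_card_of_injOn (fun i : Fin n => ξ i)
      · intro i hi
        simp only [Finset.coe_filter, Finset.mem_univ, true_and, mem_setOf_eq] at hi
        have := hφ i
        rw [hi] at this
        exact hS' _ this (hξ3 i i.2)
      · intro i hi j hj hij
        simp only at hij
        by_contra hne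
        rcases lt_or_gt_of_ne hne with h' | h'
        · exact absurd hij (hξm i j h' j.2).ne
        · exact absurd hij (hξm j i h' i.2).ne'
  have hcard := Finset.card_le_mul_card_image (f := φ) (Finset.univ : Finset (Fin n)) D
    (fun q _ => hfib q)
  rw [Finset.card_univ, Fintype.card_fin] at hcard
  have h2 : (Finset.univ.image φ).card ≤ p := by
    have := Finset.card_le_univ (Finset.univ.image φ)
    rwa [Fintype.card_fin] at this
  calc n ≤ D * (Finset.univ.image φ).card := hcard
    _ ≤ D * p := Nat.mul_le_mul_left _ h2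
    _ = p * D := mul_comm _ _

theorem main_central {E : Type*} [NormedAddCommGroup E] [NormedSpace ℝ E] (m : ℕ) (τ ε : ℝ)
    (hε : 0 < ε) (hτ : 2 ^ m * (1 + 1 / ε) < τ) (K : Set E) (π : E →ᵃ[ℝ] Vars m)
    (hπ : Continuous π) (hK : π '' K = feas m τ) (z : ℝ → E) (hz : ContinuousOn z (Icc 0 1))
    (hc : ∀ s ∈ Icc (0 : ℝ) 1, Central K (fun v => cost (π v)) ε (z s))
    (hd : Descends m τ (fun v => cost (π v)) z) (D p : ℕ) (hD : 1 ≤ D)
    (hp : UnionOfArcs D p z) : 2 ^ m ≤ p * D + 1 := by
  have h2m : (1 : ℝ) ≤ 2 ^ m := one_le_pow₀ (by norm_num)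
  have hτ1 : 1 < τ := by
    have : 1 ≤ (2 : ℝ) ^ m * (1 + 1 / ε) := by
      have : (0 : ℝ) < 1 / ε := by positivity
      nlinarith
    linarith
  have h0 : 0 < τ := by linarith
  obtain ⟨N, hN⟩ : ∃ N : ℕ, 2 ^ m = N + 1 := ⟨2 ^ m - 1, by
    have : 0 < 2 ^ m := by positivity
    omega⟩
  have hNz : (2 : ℤ) ^ m = N + 1 := by exact_mod_cast hN
  let g : ℝ → ℝ := fun s => cost (π (z s))
  have hg : ContinuousOn g (Icc 0 1) := ((continuous_cost m).comp hπ).comp_continuousOn hz
  let v : ℕ → ℝ := fun i => τ ^ ((2 : ℤ) ^ m - 2 - 2 * (i : ℤ))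
  have hv : ∀ i < N, v (i + 1) < v i := by
    intro i _
    apply zpow_lt_zpow_right₀ hτ1
    push_cast
    linarith
  have hTz : τ ^ ((2 : ℤ) ^ m) = τ ^ 2 ^ m := by
    rw [← zpow_natCast]; push_cast; rfl
  have hv0 : v 0 ≤ g 0 := by
    have h := hd.1
    simp only at h
    have e : v 0 = τ ^ 2 ^ m / τ ^ 2 := by
      simp only [v]
      rw [Nat.cast_zero, mul_zero, sub_zero, zpow_sub₀ h0.ne', hTz]
      rfl
    rw [e]; exact h
  have hvN : g 1 ≤ v N := by
    have h := hd.2
    simp only at h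
    have e : v N = 1 / τ ^ 2 ^ m := by
      simp only [v]
      have : (2 : ℤ) ^ m - 2 - 2 * (N : ℤ) = -(2 ^ m) := by rw [hNz]; ring
      rw [this, zpow_neg, hTz, one_div]
    rw [e]; exact h
  obtain ⟨t, ht1, ht2⟩ := exists_times g hg v N hv hv0 hvN
  -- signs
  let l : E →ᵃ[ℝ] ℝ := (gap m).toAffineMap.comp π
  have hl : ∀ w, l w = ((π w) (Fin.last m)).1 - ((π w) (Fin.last m)).2 := fun w => rfl
  have hlc : ContinuousOn (fun s => l (z s)) (Icc 0 1) :=
    ((continuous_gap m).comp hπ).comp_continuousOn hz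
  have hcount := count_arcs z l hlc N t (fun i hi => (ht1 i hi).1) ht2 ((-1) ^ (N + 1)) ?_ D p hD hp
  · omega
  · intro i hi
    obtain ⟨hti, hgi⟩ := ht1 i hi
    obtain ⟨hzK, hzc⟩ := hc (t i) hti
    have hxf : π (z (t i)) ∈ feas m τ := by rw [← hK]; exact ⟨_, hzK, rfl⟩
    obtain ⟨k, hk⟩ : ∃ k : ℕ, i + k = N := ⟨N - i, by omega⟩
    have hkz : (i : ℤ) + k = N := by exact_mod_cast hk
    have hexp : (2 : ℤ) ^ m - 2 - 2 * (i : ℤ) = -2 ^ m + 2 * (k : ℤ) := by
      have : (k : ℤ) = N - i := by linarith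
      rw [this, hNz]; ring
    have hcost : cost (π (z (t i))) = τ ^ (-2 ^ m + 2 * (k : ℤ)) := by
      rw [← hexp]; exact hgi
    have hk2 : k ≤ 2 ^ m := by omega
    have hlam : (-2 ^ m + 2 * (k : ℤ)) ≤ 2 ^ m := by
      have : (k : ℤ) ≤ 2 ^ m := by exact_mod_cast hk2
      linarith
    have hlow := low_mem hτ1.le (-2 ^ m + 2 * (k : ℤ)) hlam
    rw [← hK] at hlow
    obtain ⟨y, hyK, hy⟩ := hlow
    have hcy : cost (π y) ≤ cost (π (z (t i))) := by
      rw [hy, cost_low, hcost]
    have hmem := hzc y hyK hcy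
    have hmem2 : π (z (t i) + ε • (z (t i) - y)) ∈ feas m τ := by
      rw [← hK]; exact ⟨_, hmem, rfl⟩
    have hpi : π (z (t i) + ε • (z (t i) - y)) =
        π (z (t i)) + ε • (π (z (t i)) - low m τ (-2 ^ m + 2 * (k : ℤ))) := by
      rw [← hy]
      have e : z (t i) + ε • (z (t i) - y) = ε • (z (t i) - y) +ᵥ z (t i) := by
        rw [vadd_eq_add, add_comm]
      rw [e, π.map_vadd, π.linear.map_smul, vadd_eq_add]
      have e2 : π.linear (z (t i) - y) = π (z (t i)) - π y := by
        have := π.linearMap_vsub (z (t i)) y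
        simpa using this
      rw [e2, add_comm]
    rw [hpi] at hmem2
    have hsg := sign_at hε hτ hxf k hk2 hcost hmem2
    rw [← hl] at hsg
    have hsign : ((-1 : ℝ)) ^ (N + 1) * (-1) ^ i = (-1) ^ (k + 1) := by
      rw [← hk, ← pow_add]
      have : i + k + 1 + i = (k + 1) + 2 * i := by ring
      rw [this, pow_add, pow_mul]
      norm_num
    rw [hsign]
    exact hsg

end Pool.Agent.W913.IPM
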